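import Pool.Agent.helper10.OM.SpecG

set_option autoImplicit false

namespace Pool.Agent.OM

open Finset Real Pool.Agent.AT Pool.Agent.helper85.FC

theorem GOP_kg01 (w : ℕ × ℕ → ℤ → ℝ) (hw : ∀ m v, 0 ≤ w m v ∧ w m v ≤ 1) (p p' : ℕ × ℕ) :
    0 ≤ kg w p p' ∧ kg w p p' ≤ 1 := by
  unfold kg
  split_ifs
  · exact hw _ _
  · exact hw _ _
  · exact ⟨le_refl _, zero_le_one⟩

theorem GOP_kgsymm (w : ℕ × ℕ → ℤ → ℝ) (p p' : ℕ × ℕ) : kg w p p' = kg w p' p := by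
  unfold kg
  rcases lt_trichotomy p.1 p'.1 with h | h | h
  · rw [if_neg (by omega), if_pos h, if_pos h]
  · rw [if_neg (by omega), if_neg (by omega), if_neg (by omega), if_neg (by omega)]
  · rw [if_pos h, if_neg (by omega), if_pos h]

theorem GOP_kgdiag (w : ℕ × ℕ → ℤ → ℝ) (p : ℕ × ℕ) : kg w p p = 0 := by
  unfold kg
  rw [if_neg (lt_irrefl _), if_neg (lt_irrefl _)]

theorem GOP_BG01 (H : ℕ) (m : ℕ × ℕ) (v : ℤ) : 0 ≤ BG H m v ∧ BG H m v ≤ 1 := by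
  unfold BG
  split_ifs <;> norm_num

theorem GOP_PG01 (M T : ℕ) (B : ℕ × ℕ → ℤ → ℝ) (hB : ∀ m v, 0 ≤ B m v ∧ B m v ≤ 1) (m : ℕ × ℕ) (v : ℤ) :
    0 ≤ PG M T B m v ∧ PG M T B m v ≤ 1 := by
  unfold PG sm
  constructor
  · apply div_nonneg _ (Nat.cast_nonneg _)
    exact Finset.sum_nonneg fun τ _ => (hB m _).1
  · apply div_le_one_of_le₀ _ (Nat.cast_nonneg _)
    calc ∑ τ ∈ range T, B m (v + M * τ) ≤ ∑ τ ∈ range T, (1 : ℝ) := Finset.sum_le_sum fun τ _ => (hB m _).2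
      _ = T := by simp

open Classical in
theorem GOP_k4 {α : Type} (V : Finset α) (W : α → α → ℝ) (ε : ℝ) (hε : 0 ≤ ε) (hW : ∀ x y, 0 ≤ W x y) :
    ε ^ 6 * #{t ∈ V ×ˢ V ×ˢ V ×ˢ V | ε ≤ W t.1 t.2.1 ∧ ε ≤ W t.1 t.2.2.1 ∧ ε ≤ W t.1 t.2.2.2 ∧ ε ≤ W t.2.1 t.2.2.1 ∧
      ε ≤ W t.2.1 t.2.2.2 ∧ ε ≤ W t.2.2.1 t.2.2.2} ≤ K4 V W := by
  rw [Finset.card_filter]
  push_cast
  rw [Finset.mul_sum]
  have e : K4 V W = ∑ t ∈ V ×ˢ V ×ˢ V ×ˢ V, W t.1 t.2.1 * W t.1 t.2.2.1 * W t.1 t.2.2.2 * W t.2.1 t.2.2.1 *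
      W t.2.1 t.2.2.2 * W t.2.2.1 t.2.2.2 := by
    unfold K4
    rw [Finset.sum_product]
    apply Finset.sum_congr rfl
    intro x _
    rw [Finset.sum_product]
    apply Finset.sum_congr rfl
    intro y _
    rw [Finset.sum_product]
  rw [e]
  apply Finset.sum_le_sum
  intro t _
  by_cases h : ε ≤ W t.1 t.2.1 ∧ ε ≤ W t.1 t.2.2.1 ∧ ε ≤ W t.1 t.2.2.2 ∧ ε ≤ W t.2.1 t.2.2.1 ∧
      ε ≤ W t.2.1 t.2.2.2 ∧ ε ≤ W t.2.2.1 t.2.2.2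
  · rw [if_pos h]
    obtain ⟨g1, g2, g3, g4, g5, g6⟩ := h
    have k2 : ε * ε ≤ W t.1 t.2.1 * W t.1 t.2.2.1 := mul_le_mul g1 g2 hε (hW _ _)
    have k3 : ε * ε * ε ≤ W t.1 t.2.1 * W t.1 t.2.2.1 * W t.1 t.2.2.2 :=
      mul_le_mul k2 g3 hε (mul_nonneg (hW _ _) (hW _ _))
    have k4 : ε * ε * ε * ε ≤ W t.1 t.2.1 * W t.1 t.2.2.1 * W t.1 t.2.2.2 * W t.2.1 t.2.2.1 :=
      mul_le_mul k3 g4 hε (mul_nonneg (mul_nonneg (hW _ _) (hW _ _)) (hW _ _))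
    have k5 : ε * ε * ε * ε * ε ≤ W t.1 t.2.1 * W t.1 t.2.2.1 * W t.1 t.2.2.2 * W t.2.1 t.2.2.1 * W t.2.1 t.2.2.2 :=
      mul_le_mul k4 g5 hε (mul_nonneg (mul_nonneg (mul_nonneg (hW _ _) (hW _ _)) (hW _ _)) (hW _ _))
    have k6 : ε * ε * ε * ε * ε * ε ≤ W t.1 t.2.1 * W t.1 t.2.2.1 * W t.1 t.2.2.2 * W t.2.1 t.2.2.1 *
        W t.2.1 t.2.2.2 * W t.2.2.1 t.2.2.2 :=
      mul_le_mul k5 g6 hε (mul_nonneg (mul_nonneg (mul_nonneg (mul_nonneg (hW _ _) (hW _ _)) (hW _ _)) (hW _ _))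
        (hW _ _))
    calc ε ^ 6 * 1 = ε * ε * ε * ε * ε * ε := by ring
      _ ≤ _ := k6
  · rw [if_neg h, mul_zero]
    exact mul_nonneg (mul_nonneg (mul_nonneg (mul_nonneg (mul_nonneg (hW _ _) (hW _ _)) (hW _ _)) (hW _ _))
        (hW _ _)) (hW _ _)

theorem GOP_VF (F : Finset ℕ) (Y : ℕ) : #(VF F Y) = #F * Y := by
  unfold VF
  rw [card_product, card_range]

theorem GOP_count (F : Finset ℕ) (Y : ℕ) (W : ℕ × ℕ → ℕ × ℕ → ℝ) (hs : ∀ p p', W p p' = W p' p) (ε : ℝ) :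
    ((#F : ℝ) * Y) ^ 2 ≤ 2 * #{t ∈ VF F Y ×ˢ VF F Y | t.2.1 < t.1.1 ∧ W t.1 t.2 < ε} + #F * (Y : ℝ) ^ 2 +
      #{t ∈ VF F Y ×ˢ VF F Y | ε ≤ W t.1 t.2} := by
  classical
  have hsub : VF F Y ×ˢ VF F Y ⊆ ({t ∈ VF F Y ×ˢ VF F Y | t.2.1 < t.1.1 ∧ W t.1 t.2 < ε} ∪
      {t ∈ VF F Y ×ˢ VF F Y | t.1.1 < t.2.1 ∧ W t.1 t.2 < ε}) ∪ {t ∈ VF F Y ×ˢ VF F Y | t.1.1 = t.2.1} ∪
      {t ∈ VF F Y ×ˢ VF F Y | ε ≤ W t.1 t.2} := by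
    intro t ht
    simp only [mem_union, mem_filter]
    rcases lt_or_ge (W t.1 t.2) ε with h | h
    · rcases lt_trichotomy t.1.1 t.2.1 with h' | h' | h'
      · left; left; right
        exact ⟨ht, h', h⟩
      · left; right
        exact ⟨ht, h'⟩
      · left; left; left
        exact ⟨ht, h', h⟩
    · right
      exact ⟨ht, h⟩
  have hc := card_le_card hsub
  have hswap : #{t ∈ VF F Y ×ˢ VF F Y | t.1.1 < t.2.1 ∧ W t.1 t.2 < ε} ≤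
      #{t ∈ VF F Y ×ˢ VF F Y | t.2.1 < t.1.1 ∧ W t.1 t.2 < ε} := by
    apply card_le_card_of_injOn (fun t => (t.2, t.1))
    · intro t ht
      simp only [coe_filter, Set.mem_setOf_eq, mem_product] at ht ⊢
      exact ⟨⟨ht.1.2, ht.1.1⟩, ht.2.1, by rw [hs]; exact ht.2.2⟩
    · intro t _ t' _ h
      simp only [Prod.mk.injEq] at h
      exact Prod.ext h.2 h.1
  have heq : #{t ∈ VF F Y ×ˢ VF F Y | t.1.1 = t.2.1} ≤ #F * Y ^ 2 := by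
    have : #((F ×ˢ range Y) ×ˢ range Y) = #F * Y ^ 2 := by
      simp only [card_product, card_range]
      ring
    rw [← this]
    apply card_le_card_of_injOn (fun t => ((t.1.1, t.1.2), t.2.2))
    · intro t ht
      simp only [coe_filter, Set.mem_setOf_eq, mem_product, VF] at ht
      simp only [coe_product, Set.mem_prod, mem_coe]
      exact ⟨⟨ht.1.1.1, ht.1.1.2⟩, ht.1.2.2⟩
    · intro t ht t' ht' h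
      simp only [coe_filter, Set.mem_setOf_eq] at ht ht'
      simp only [Prod.mk.injEq] at h
      obtain ⟨⟨g1, g2⟩, g3⟩ := h
      refine Prod.ext (Prod.ext g1 g2) (Prod.ext ?_ g3)
      rw [← ht.2, ← ht'.2, g1]
  have hu1 := card_union_le (({t ∈ VF F Y ×ˢ VF F Y | t.2.1 < t.1.1 ∧ W t.1 t.2 < ε} ∪
      {t ∈ VF F Y ×ˢ VF F Y | t.1.1 < t.2.1 ∧ W t.1 t.2 < ε}) ∪ {t ∈ VF F Y ×ˢ VF F Y | t.1.1 = t.2.1})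
      {t ∈ VF F Y ×ˢ VF F Y | ε ≤ W t.1 t.2}
  have hu2 := card_union_le ({t ∈ VF F Y ×ˢ VF F Y | t.2.1 < t.1.1 ∧ W t.1 t.2 < ε} ∪
      {t ∈ VF F Y ×ˢ VF F Y | t.1.1 < t.2.1 ∧ W t.1 t.2 < ε}) {t ∈ VF F Y ×ˢ VF F Y | t.1.1 = t.2.1}
  have hu3 := card_union_le {t ∈ VF F Y ×ˢ VF F Y | t.2.1 < t.1.1 ∧ W t.1 t.2 < ε}
      {t ∈ VF F Y ×ˢ VF F Y | t.1.1 < t.2.1 ∧ W t.1 t.2 < ε}
  have htot : #(VF F Y ×ˢ VF F Y) = (#F * Y) ^ 2 := by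
    rw [card_product, GOP_VF]
    ring
  rw [htot] at hc
  have hfin : (#F * Y) ^ 2 ≤ 2 * #{t ∈ VF F Y ×ˢ VF F Y | t.2.1 < t.1.1 ∧ W t.1 t.2 < ε} + #F * Y ^ 2 +
      #{t ∈ VF F Y ×ˢ VF F Y | ε ≤ W t.1 t.2} := by omega
  exact_mod_cast hfin

theorem GOP_main (h1 : GCU_stmt) (h2 : CNT_stmt) (h3 : MM_stmt) (h4 : GK4_stmt) (h5 : GRR_stmt) (hQ : QPc) (ε : ℝ) (hε : 0 < ε) :
    ∃ η : ℝ, 0 < η ∧ ∀ (F : Finset ℕ) (H : ℕ), (∀ s ∈ F, 1 ≤ s ∧ s ≤ H) →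
  (#(QF F) : ℝ) ≤ η * (#F : ℝ) ^ 2 → ∀ T : ℕ, 1 ≤ T → ∃ Y₀ : ℕ, ∀ Y : ℕ, Y₀ ≤ Y → (1 / 6 - ε) * ((#F : ℝ) * Y) ^ 2 ≤
    #{t ∈ VF F Y ×ˢ VF F Y | t.2.1 < t.1.1 ∧ kg (PG (MH H ^ 2) T (BG H)) t.1 t.2 < ε} := by
  classical
  obtain ⟨C, δ, hC, hδ, hK⟩ := h4 hQ
  set κ : ℝ := min 1 (ε / (126 * ε⁻¹ ^ 6 + 1)) with hκ
  have hκ0 : 0 < κ := lt_min one_pos (by positivity)
  have hκ1 : κ ≤ 1 := min_le_left _ _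
  have hκ2 : κ ≤ ε / (126 * ε⁻¹ ^ 6 + 1) := min_le_right _ _
  have hκ3 : √(κ ^ 2) = κ := Real.sqrt_sq hκ0.le
  have hκε : 126 * ε⁻¹ ^ 6 * κ + κ ^ 2 ≤ ε := by
    have e1 : κ ^ 2 ≤ κ := by nlinarith
    have e2 : κ * (126 * ε⁻¹ ^ 6 + 1) ≤ ε := (le_div_iff₀ (by positivity)).mp hκ2
    nlinarith
  refine ⟨κ ^ 2, by positivity, ?_⟩
  intro F H hF hQF T hT
  rcases F.eq_empty_or_nonempty with hFe | hFne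
  · refine ⟨0, fun Y _ => ?_⟩
    have e0 : ((#F : ℕ) : ℝ) = 0 := by rw [hFe]; simp
    rw [e0]
    have e1 : (1 / 6 - ε) * ((0 : ℝ) * Y) ^ 2 = 0 := by ring
    rw [e1]
    exact Nat.cast_nonneg _
  obtain ⟨-, -, -, hr4, hr5⟩ := h5 F H hF
  have hFc : 1 ≤ #F := Finset.card_pos.mpr hFne
  have hF1 : (1 : ℝ) ≤ #F := by exact_mod_cast hFc
  have hRR : (#(RR F) : ℝ) ≤ κ ^ 2 * (#F : ℝ) ^ 2 := by
    have : (#(RR F) : ℝ) ≤ #(QF F) := by exact_mod_cast hr4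
    linarith
  have hinv : 1 / (#F : ℝ) ≤ κ ^ 2 := by
    have e1 : (#F : ℝ) ≤ #(QF F) := by exact_mod_cast hr5
    rw [div_le_iff₀ (by linarith)]
    have e2 : (#F : ℝ) * 1 ≤ #F * (κ ^ 2 * #F) := by nlinarith
    exact le_of_mul_le_mul_left e2 (by linarith)
  obtain ⟨Y₁, hY₁⟩ := h1 (κ ^ 2) (by positivity) F H T hF hT hRR
  rw [hκ3] at hY₁
  have hc0 : 0 < ε / (3 / 2 * ε⁻¹ ^ 6 * C) := by positivity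
  have htend := tendsto_rpow_neg_atTop hδ
  have hev := htend.eventually (gt_mem_nhds hc0)
  obtain ⟨x₀, hx₀⟩ := Filter.eventually_atTop.mp hev
  obtain ⟨Y₂, hY₂⟩ := exists_nat_ge x₀
  refine ⟨Y₁ + Y₂ + 1, ?_⟩
  intro Y hY
  have hY1 : 1 ≤ Y := by omega
  have hY1' : (1 : ℝ) ≤ Y := by exact_mod_cast hY1
  set W : ℕ × ℕ → ℕ × ℕ → ℝ := kg (PG (MH H ^ 2) T (BG H)) with hW
  have hW01 : ∀ p p', 0 ≤ W p p' ∧ W p p' ≤ 1 :=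
    fun p p' => GOP_kg01 _ (GOP_PG01 _ _ _ (GOP_BG01 H)) p p'
  have hU01 : ∀ p p', 0 ≤ kg (BG H) p p' ∧ kg (BG H) p p' ≤ 1 :=
    fun p p' => GOP_kg01 _ (GOP_BG01 H) p p'
  have hWs : ∀ p p', W p p' = W p' p := fun p p' => GOP_kgsymm _ p p'
  have hWd : ∀ p, W p p = 0 := fun p => GOP_kgdiag _ p
  have hcnt := h2 (VF F Y) (kg (BG H)) W (14 * κ * ((#F : ℝ) * Y) ^ 2) hU01 hW01
    (hY₁ Y (by omega) (BG H) (GOP_BG01 H))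
  have hk := hK F H Y hF hFne hY1
  rw [GOP_VF] at hcnt
  set n : ℝ := (#F : ℝ) * Y with hn
  have hn1 : 1 ≤ n := by
    rw [hn]
    nlinarith
  have hn0 : 0 < n := by linarith
  have hnY : (Y : ℝ) ≤ n := by
    rw [hn]
    nlinarith
  have hnx : x₀ ≤ n := by
    have : (Y₂ : ℝ) ≤ Y := by exact_mod_cast (show Y₂ ≤ Y by omega)
    linarith
  have hnδ : n ^ (-δ) < ε / (3 / 2 * ε⁻¹ ^ 6 * C) := hx₀ n hnx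
  have hnδ' : 3 / 2 * ε⁻¹ ^ 6 * (C * n ^ (-δ)) ≤ ε := by
    have := (lt_div_iff₀ (by positivity)).mp hnδ
    nlinarith
  have hcast : (((#F * Y : ℕ) : ℝ)) = n := by
    rw [hn]
    push_cast
    ring
  rw [hcast] at hcnt
  have hKW : K4 (VF F Y) W ≤ n ^ 4 * (C * n ^ (-δ)) + 84 * n ^ 4 * κ := by
    have e1 : 6 * (14 * κ * n ^ 2) * n ^ 2 = 84 * n ^ 4 * κ := by ring
    have e2 : C * n ^ 4 * n ^ (-δ) = n ^ 4 * (C * n ^ (-δ)) := by ring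
    rw [e1] at hcnt
    rw [e2] at hk
    linarith
  have hmm := h3 (VF F Y) (fun p p' => ε ≤ W p p') (fun x y h => by rw [hWs]; exact h)
    (fun x h => by rw [hWd] at h; linarith)
  have hk4 := GOP_k4 (VF F Y) W ε hε.le (fun x y => (hW01 x y).1)
  set N4 : ℕ := #{t ∈ VF F Y ×ˢ VF F Y ×ˢ VF F Y ×ˢ VF F Y | ε ≤ W t.1 t.2.1 ∧ ε ≤ W t.1 t.2.2.1 ∧ ε ≤ W t.1 t.2.2.2 ∧
      ε ≤ W t.2.1 t.2.2.1 ∧ ε ≤ W t.2.1 t.2.2.2 ∧ ε ≤ W t.2.2.1 t.2.2.2} with hN4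
  have hmm' : ((#(VF F Y) : ℕ) : ℝ) ^ 2 * (#{t ∈ VF F Y ×ˢ VF F Y | ε ≤ W t.1 t.2} : ℕ) ≤
      2 / 3 * ((#(VF F Y) : ℕ) : ℝ) ^ 4 + 3 / 2 * (N4 : ℝ) := by
    refine le_trans (le_of_eq ?_) (hmm.trans (le_of_eq ?_))
    · congr 2
    · congr 2
  rw [GOP_VF, hcast] at hmm'
  set NRR : ℕ := #{t ∈ VF F Y ×ˢ VF F Y | ε ≤ W t.1 t.2} with hNR
  have hcount := GOP_count F Y W hWs ε
  rw [← hNR, ← hn] at hcount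
  set NF : ℕ := #{t ∈ VF F Y ×ˢ VF F Y | t.2.1 < t.1.1 ∧ W t.1 t.2 < ε} with hNF
  have hN4' : (N4 : ℝ) ≤ ε⁻¹ ^ 6 * (n ^ 4 * (C * n ^ (-δ)) + 84 * n ^ 4 * κ) := by
    have e1 : ε ^ 6 * (N4 : ℝ) ≤ n ^ 4 * (C * n ^ (-δ)) + 84 * n ^ 4 * κ := hk4.trans hKW
    have e2 : (N4 : ℝ) = ε⁻¹ ^ 6 * (ε ^ 6 * (N4 : ℝ)) := by
      field_simp
    rw [e2]
    exact mul_le_mul_of_nonneg_left e1 (by positivity)
  have hR : (NRR : ℝ) ≤ n ^ 2 * (2 / 3 + 3 / 2 * ε⁻¹ ^ 6 * (C * n ^ (-δ)) + 126 * ε⁻¹ ^ 6 * κ) := by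
    have e1 : n ^ 2 * (NRR : ℝ) ≤ n ^ 2 * (n ^ 2 * (2 / 3 + 3 / 2 * ε⁻¹ ^ 6 * (C * n ^ (-δ)) +
        126 * ε⁻¹ ^ 6 * κ)) := by
      refine hmm'.trans ?_
      have e2 : 2 / 3 * n ^ 4 + 3 / 2 * (ε⁻¹ ^ 6 * (n ^ 4 * (C * n ^ (-δ)) + 84 * n ^ 4 * κ)) =
        n ^ 2 * (n ^ 2 * (2 / 3 + 3 / 2 * ε⁻¹ ^ 6 * (C * n ^ (-δ)) + 126 * ε⁻¹ ^ 6 * κ)) := by ring
      rw [← e2]
      linarith
    exact le_of_mul_le_mul_left e1 (by positivity)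
  have hR2 : (NRR : ℝ) ≤ n ^ 2 * (2 / 3 + 2 * ε - κ ^ 2) := by
    refine hR.trans ?_
    apply mul_le_mul_of_nonneg_left _ (by positivity)
    linarith
  have hLY : (#F : ℝ) * (Y : ℝ) ^ 2 = n ^ 2 * (1 / #F) := by
    rw [hn]
    field_simp
  rw [hLY] at hcount
  have hinv2 : n ^ 2 * (1 / (#F : ℝ)) ≤ n ^ 2 * κ ^ 2 := mul_le_mul_of_nonneg_left hinv (by positivity)
  have hfin : n ^ 2 ≤ 2 * (NF : ℝ) + n ^ 2 * κ ^ 2 + n ^ 2 * (2 / 3 + 2 * ε - κ ^ 2) := by linarith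
  have hfin2 : (1 / 6 - ε) * n ^ 2 ≤ (NF : ℝ) := by
    have e3 : n ^ 2 * κ ^ 2 + n ^ 2 * (2 / 3 + 2 * ε - κ ^ 2) = n ^ 2 * (2 / 3 + 2 * ε) := by ring
    nlinarith
  exact hfin2

theorem GOP (h1 : GCU_stmt) (h2 : CNT_stmt) (h3 : MM_stmt) (h4 : GK4_stmt) (h5 : GRR_stmt) : GOP_stmt := by
  intro hQ ε hε
  exact GOP_main h1 h2 h3 h4 h5 hQ ε hε

end Pool.Agent.OM
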